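import Pool.Agent.helper56.P2B.SpecP

/-!
# Project p2b: CVG: limits of maps
-/

set_option autoImplicit false

open Complex Metric Set Filter Topology MeasureTheory
open Pool.Agent.helper98.ILF
open WP (it)
open HY (UD T S hd UN RM)
open PM
open PL (TP LO PZ GJ INR PG DK ht tr DI CY SUBH hG hq BJ)
open P2 (SS FLS FL CLS FR TL)

noncomputable section

namespace P2B

theorem CVG (hCVA : CVA_stmt) (hCVD : CVD_stmt) (hTMO : V3.TMO_stmt) (hTDE : V3.TDE_stmt) (hTDF : TDF_stmt) : CVG_stmt := by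
  intro V Ω φ χ hCV G hG
  obtain ⟨-, hDD, -, hO, h0, -, hK⟩ := hCVA V Ω φ χ hCV
  have hloc : ∀ p ∈ χ '' UD, ∃ r > (0 : ℝ), ∀ᶠ l in (V : Filter ℕ), DifferentiableOn ℂ (G l) (ball p r) ∧ ∀ y ∈ ball p r, ‖G l y‖ ≤ 1 := by
    intro p hp
    obtain ⟨r, hr, hr'⟩ := Metric.nhds_basis_closedBall.mem_iff.1 (hO.mem_nhds hp)
    refine ⟨r, hr, ?_⟩
    filter_upwards [hK _ hr' (isCompact_closedBall p r)] with l hl
    refine ⟨(hG l).1.mono (ball_subset_closedBall.trans hl), ?_⟩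
    intro y hy
    have h1 : G l y ∈ ball (0 : ℂ) 1 := (hG l).2.1 (hl (ball_subset_closedBall hy))
    rw [mem_ball_zero_iff] at h1
    exact h1.le
  obtain ⟨F, -, hF⟩ := hTMO V G (χ '' UD) hO (fun p hp => by
    obtain ⟨r, hr, h⟩ := hloc p hp
    exact ⟨r, hr, 1, h⟩)
  obtain ⟨hdiff, hder, -⟩ := hTDE V G F (χ '' UD) hO
    (fun p hp => by
      obtain ⟨r, hr, h⟩ := hloc p hp
      exact ⟨r, hr, h.mono fun j hj => hj.1⟩) hF
  have hpt : ∀ z ∈ χ '' UD, Tendsto (fun l => G l z) V (𝓝 (F z)) := fun z hz => hF.tendsto_at hz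
  have hF0 : F 0 = 0 := by
    refine tendsto_nhds_unique (hpt 0 h0) ?_
    have e : (fun l => G l 0) = fun _ => (0 : ℂ) := by
      funext l
      exact (hG l).2.2
    rw [e]
    exact tendsto_const_nhds
  have hle : ∀ z ∈ χ '' UD, ‖F z‖ ≤ 1 := by
    intro z hz
    obtain ⟨r, hr, h⟩ := hloc z hz
    refine le_of_tendsto (hpt z hz).norm ?_
    exact h.mono fun j hj => hj.2 z (mem_ball_self hr)
  have hconn : IsPreconnected (χ '' UD) := (hTDF _ hDD).2.1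
  have hmaps : MapsTo F (χ '' UD) UD := by
    intro z hz
    change F z ∈ ball (0 : ℂ) 1
    rw [mem_ball_zero_iff]
    rcases lt_or_eq_of_le (hle z hz) with h | h
    · exact h
    · exfalso
      have hmax : IsMaxOn (norm ∘ F) (χ '' UD) z := by
        intro y hy
        change ‖F y‖ ≤ ‖F z‖
        rw [h]
        exact hle y hy
      have := Complex.norm_eqOn_of_isPreconnected_of_isMaxOn hconn hO hdiff hz hmax h0
      change ‖F 0‖ = ‖F z‖ at this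
      rw [hF0, h, norm_zero] at this
      exact zero_ne_one this
  refine ⟨F, hdiff, hmaps, hF0, hF, ?_⟩
  intro ζ ζ₀ hζ₀ hζ
  have hζ' : Tendsto ζ V (𝓝[χ '' UD] ζ₀) := tendsto_nhdsWithin_iff.2 ⟨hζ, hζ.eventually (hO.mem_nhds hζ₀)⟩
  have hGc : Tendsto (fun l => G l (ζ l)) V (𝓝 (F ζ₀)) :=
    hF.tendsto_comp (x := ζ₀) (hdiff.continuousOn ζ₀ hζ₀) hζ₀ hζ'
  refine ⟨hGc, ?_⟩
  have hG'c : Tendsto (fun l => deriv (G l) (ζ l)) V (𝓝 (deriv F ζ₀)) :=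
    hder.tendsto_comp (x := ζ₀) ((hdiff.deriv hO).continuousOn ζ₀ hζ₀) hζ₀ hζ'
  obtain ⟨-, hcr, -⟩ := hCVD V Ω φ χ hCV ζ ζ₀ hζ₀ hζ
  have hlt : ‖F ζ₀‖ < 1 := by
    have h1 : F ζ₀ ∈ ball (0 : ℂ) 1 := hmaps hζ₀
    rwa [mem_ball_zero_iff] at h1
  have hne : 1 - ‖F ζ₀‖ ^ 2 ≠ 0 := by
    have : 0 < 1 - ‖F ζ₀‖ ^ 2 := by nlinarith [norm_nonneg (F ζ₀)]
    exact this.ne'
  exact (hG'c.norm.mul hcr).div (tendsto_const_nhds.sub (hGc.norm.pow 2)) hne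

end P2B
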