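import Pool.Agent.helper56.P2B.SpecP

/-!
# Project p2b: CVN: at most two critical values
-/

set_option autoImplicit false

open Complex Metric Set Filter Topology MeasureTheory
open Pool.Agent.helper98.ILF
open WP (it)
open HY (UD T S hd UN RM)
open PM
open PL (TP LO PZ GJ INR PG DK ht tr DI CY SUBH hG hq BJ)
open P2 (SS FLS FL CLS FR TL)

noncomputable section

namespace P2B

theorem CVN_ht (p z : ℂ) : ht p z = 2 * p - z := by
  simp [PL.ht, Equiv.subLeft]

theorem CVN_tr (b z : ℂ) : tr b z = z + b := by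
  simp [PL.tr]

theorem CVN_ht_inj {p q : ℂ} (h : ht p = ht q) : p = q := by
  have h1 := congrArg (fun σ : Equiv.Perm ℂ => σ 0) h
  simp only [CVN_ht] at h1
  linear_combination h1 / 2

theorem CVN_ht_ne_tr (p b : ℂ) : ht p ≠ tr b := by
  intro h
  have h1 := congrArg (fun σ : Equiv.Perm ℂ => σ 0) h
  have h2 := congrArg (fun σ : Equiv.Perm ℂ => σ 1) h
  simp only [CVN_ht, CVN_tr] at h1 h2
  have h3 : (2 : ℂ) = 0 := by linear_combination h1 - h2
  norm_num at h3

theorem CVN_ht_ne_one (p : ℂ) : ht p ≠ 1 := by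
  intro h
  have h1 := congrArg (fun σ : Equiv.Perm ℂ => σ 0) h
  have h2 := congrArg (fun σ : Equiv.Perm ℂ => σ 1) h
  simp only [CVN_ht, Equiv.Perm.one_apply] at h1 h2
  have h3 : (2 : ℂ) = 0 := by linear_combination h1 - h2
  norm_num at h3

theorem CVN (hCRI : PL.CRI_stmt) : CVN_stmt := by
  classical
  intro Ω G hPG hTY
  have h0 : G 0 ∈ UD := hPG.map hPG.z0
  rcases hTY with h | ⟨p, hp, h⟩ | ⟨p, hp, b, hb, h⟩
  · refine ⟨G 0, h0, G 0, h0, ?_⟩
    intro z hz hd
    exfalso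
    have h1 := (hCRI Ω G hPG z hz).1 hd
    rw [h, Subgroup.mem_bot] at h1
    exact CVN_ht_ne_one z h1
  · refine ⟨G p, hPG.map hp, G p, hPG.map hp, ?_⟩
    intro z hz hd
    have h1 := (hCRI Ω G hPG z hz).1 hd
    rcases (h _).1 h1 with h2 | h2
    · exact absurd h2 (CVN_ht_ne_one z)
    · left
      rw [CVN_ht_inj h2]
  · obtain ⟨v, hv, hv'⟩ : ∃ v ∈ UD, p + b / 2 ∈ Ω → v = G (p + b / 2) := by
      by_cases hm : p + b / 2 ∈ Ω
      · exact ⟨G (p + b / 2), hPG.map hm, fun _ => rfl⟩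
      · exact ⟨G 0, h0, fun h => absurd h hm⟩
    refine ⟨G p, hPG.map hp, v, hv, ?_⟩
    intro z hz hd
    have h1 := (hCRI Ω G hPG z hz).1 hd
    obtain ⟨n, hn | hn⟩ := (h _).1 h1
    · exact absurd hn (CVN_ht_ne_tr _ _)
    have hz1 : z = p + n * b / 2 := CVN_ht_inj hn
    obtain ⟨m, hm | hm⟩ := Int.even_or_odd' n
    · left
      have hσ : tr ((m : ℂ) * b) ∈ DK Ω G := (h _).2 ⟨m, Or.inl rfl⟩
      obtain ⟨-, -, h4⟩ := hσ
      have h5 := h4 p hp
      rw [CVN_tr] at h5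
      rw [← h5, hz1, hm]
      congr 1
      push_cast
      ring
    · right
      have hσ : tr ((m : ℂ) * b) ∈ DK Ω G := (h _).2 ⟨m, Or.inl rfl⟩
      obtain ⟨-, h3, h4⟩ := hσ
      have e : tr ((m : ℂ) * b) (p + b / 2) = z := by
        rw [CVN_tr, hz1, hm]
        push_cast
        ring
      have h6 : p + b / 2 ∈ Ω := by
        rw [← h3, e]; exact hz
      have h5 := h4 _ h6
      rw [e] at h5
      rw [h5, hv' h6]

end P2B
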